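import Mathlib
import Pool.Agent.H.MP_be4214_an.Main

set_option autoImplicit false

namespace Pool.Agent.Results.MP_be4214_an.Proof

theorem result (D : Set ℂ) (hD : IsOpen D) (f : ℂ → ℂ) (hf : ContinuousOn f D)
    (h : ∀ z ∈ D, ∃ r₀ > 0, ∀ r, 0 < r → r ≤ r₀ → Metric.closedBall z r ⊆ D →
      (∮ w in C(z, r), f w) = 0) : DifferentiableOn ℂ f D :=
  Pool.Agent.H.MP_be4214_an.main D hD f hf h

end Pool.Agent.Results.MP_be4214_an.Proof
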